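import Pool.Agent.Q293.HF.Stm

/-!
# Project HF, part CONN: the fibres are path connected (helper110)
-/

set_option autoImplicit false

open Topology Filter
open scoped LinearAlgebra.Projectivization

namespace Pool.Agent.Q110.HF.CONN

open Pool.Agent.Q293.HF Pool.Agent.Helper922.HB

/-- the `0`-simplex at a point -/
noncomputable def pt0 {E : Type} [TopologicalSpace E] (x : E) : Sing E 0 := ContinuousMap.const _ x

theorem push_pt0 {E E' : Type} [TopologicalSpace E] [TopologicalSpace E'] (f : C(E, E')) (x : E) (c : ℤ) :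
    push f 0 (Finsupp.single (pt0 x) c) = Finsupp.single (pt0 (f x)) c := by
  rw [push_single]
  rfl

theorem bdy_of_joined {E : Type} [TopologicalSpace E] {x y : E} (h : Joined x y) :
    (Finsupp.single (pt0 x) 1 - Finsupp.single (pt0 y) 1 : Sing E 0 →₀ ℤ) ∈ Bdy E 0 := by
  obtain ⟨γ⟩ := h.symm
  have h1 := push_sub_mem_of_homotopy (X := PUnit.{1}) (Y := E) ⟨fun p => γ p.2, by fun_prop⟩
    (ContinuousMap.const _ y) (ContinuousMap.const _ x) (fun _ => by simp) (fun _ => by simp) 0
    (Finsupp.single (pt0 PUnit.unit) 1) (Submodule.mem_top)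
  rw [push_pt0, push_pt0] at h1
  exact h1

open Classical in
/-- the sum of the coefficients over the path component of `x` -/
noncomputable def comp {E : Type} [TopologicalSpace E] (x : E) : (Sing E 0 →₀ ℤ) →ₗ[ℤ] ℤ :=
  Finsupp.lsum ℤ fun σ => if Joined x (σ (Sc.vert 0 0)) then LinearMap.id else 0

open Classical in
theorem comp_single {E : Type} [TopologicalSpace E] (x : E) (σ : Sing E 0) (c : ℤ) :
    comp x (Finsupp.single σ c) = if Joined x (σ (Sc.vert 0 0)) then c else 0 := by
  unfold comp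
  rw [Finsupp.lsum_single]
  split_ifs <;> rfl

theorem simplex_joined {E : Type} [TopologicalSpace E] (n : ℕ) (σ : Sing E n)
    (a b : stdSimplex ℝ (Fin (n + 1))) : Joined (σ a) (σ b) := by
  have h1 : IsPathConnected (stdSimplex ℝ (Fin (n + 1))) :=
    (convex_stdSimplex ℝ (Fin (n + 1))).isPathConnected ⟨a.1, a.2⟩
  have : PathConnectedSpace (stdSimplex ℝ (Fin (n + 1))) := isPathConnected_iff_pathConnectedSpace.mp h1
  exact ⟨(PathConnectedSpace.somePath a b).map σ.continuous⟩

theorem comp_bdry {E : Type} [TopologicalSpace E] (x : E) (w : Sing E 1 →₀ ℤ) :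
    comp x (bdry E 0 w) = 0 := by
  have : (comp x).comp (bdry E 0) = 0 := by
    apply Finsupp.lhom_ext'
    intro σ
    apply LinearMap.ext_ring
    simp only [LinearMap.comp_apply, Finsupp.lsingle_apply, bdry, LinearMap.sum_apply,
      LinearMap.smul_apply, Finsupp.lmapDomain_apply, Finsupp.mapDomain_single, map_sum, map_smul,
      comp_single, LinearMap.zero_apply]
    rw [Fin.sum_univ_two]
    have h0 : (Joined x (sface 0 0 σ (Sc.vert 0 0))) ↔ (Joined x (sface 0 1 σ (Sc.vert 0 0))) := by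
      have h1 : Joined (sface 0 0 σ (Sc.vert 0 0)) (sface 0 1 σ (Sc.vert 0 0)) :=
        simplex_joined 1 σ _ _
      exact ⟨fun h => h.trans h1, fun h => h.trans h1.symm⟩
    by_cases hj : Joined x (sface 0 1 σ (Sc.vert 0 0))
    · have hj' := h0.mpr hj
      simp [hj, hj']
    · have hj' : ¬ Joined x (sface 0 0 σ (Sc.vert 0 0)) := fun h => hj (h0.mp h)
      rw [if_neg hj, if_neg hj']
      simp
  exact LinearMap.congr_fun this w

theorem joined_of_bdy {E : Type} [TopologicalSpace E] {x y : E}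
    (h : (Finsupp.single (pt0 x) 1 - Finsupp.single (pt0 y) 1 : Sing E 0 →₀ ℤ) ∈ Bdy E 0) :
    Joined x y := by
  obtain ⟨w, hw⟩ := h
  have h1 := comp_bdry x w
  rw [hw, map_sub, comp_single, comp_single] at h1
  by_contra hn
  rw [if_pos, if_neg] at h1
  · norm_num at h1
  · exact hn
  · exact Joined.refl x

instance : PathConnectedSpace Cs := by
  have h : IsPathConnected ({0}ᶜ : Set ℂ) :=
    isPathConnected_compl_singleton_of_one_lt_rank (by rw [Complex.rank_real_complex]; norm_num) 0
  exact isPathConnected_iff_pathConnectedSpace.mp h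

instance : PathConnectedSpace Vi := by
  have h : IsPathConnected {p : ℂ × ℂ | ‖p.1 * p.2 ^ 6‖ < 1 / 2} := by
    apply StarConvex.isPathConnected (a := 0)
    · rw [starConvex_zero_iff]
      intro p hp a ha0 ha1
      simp only [Set.mem_ofPred_eq] at hp ⊢
      have h1 : (a • p).1 * (a • p).2 ^ 6 = ((a ^ 7 : ℝ) : ℂ) * (p.1 * p.2 ^ 6) := by
        simp only [Prod.smul_fst, Prod.smul_snd, Complex.real_smul]
        push_cast
        ring
      rw [h1, norm_mul, Complex.norm_real, Real.norm_eq_abs, abs_of_nonneg (by positivity)]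
      have h2 : a ^ 7 ≤ 1 := pow_le_one₀ ha0 ha1
      calc a ^ 7 * ‖p.1 * p.2 ^ 6‖ ≤ 1 * ‖p.1 * p.2 ^ 6‖ := by
            apply mul_le_mul_of_nonneg_right h2 (norm_nonneg _)
        _ < 1 / 2 := by rw [one_mul]; exact hp
    · simp
  exact isPathConnected_iff_pathConnectedSpace.mp h

theorem conn (h : S_HT) (h1 : S_OA) (h2 : S_OI) (h3 : S_RG) : S_CONN := by
  intro n φ hφ t
  have hA := (h1 n φ hφ).1
  have hI := (h2 n φ hφ).1
  have hc := h3 n φ hφ
  -- the total space is path connected
  have hX : ∀ p q : XX φ, Joined p q := by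
    set p0 : Cs × Vi := (⟨1, one_ne_zero⟩, ⟨(0, 1), by norm_num⟩) with hp0
    obtain ⟨e0, he0⟩ := (hc.2 p0).mpr (by simp [hp0])
    have key : ∀ p : XX φ, Joined p (ptI hφ p0) := by
      intro p
      rcases hc.1 p with ⟨e, rfl⟩ | ⟨e, rfl⟩
      · rw [← he0]
        exact ⟨(PathConnectedSpace.somePath e e0).map hA⟩
      · exact ⟨(PathConnectedSpace.somePath e p0).map hI⟩
    intro p q
    exact (key p).trans (key q).symm
  rw [isPathConnected_iff_pathConnectedSpace]
  refine ⟨⟨⟨ptI hφ (⟨1, one_ne_zero⟩, ⟨(t, 0), by norm_num⟩), rfl⟩⟩, ?_⟩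
  intro x y
  apply joined_of_bdy
  apply (h n φ hφ t 0).1 _ Submodule.mem_top
  rw [map_sub, push_pt0, push_pt0]
  exact bdy_of_joined (hX _ _)

end Pool.Agent.Q110.HF.CONN
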