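import Pool.Agent.Q293.HF.Stm

/-!
# Project HF, part HT: assembly of the homology equivalence (helper110)
-/

set_option autoImplicit false

open Topology Filter
open scoped LinearAlgebra.Projectivization

namespace Pool.Agent.Q110.HF.HT

open Pool.Agent.Q293.HF Pool.Agent.Helper922.HB

theorem ht (h1 : S_REL) (h2 : S_COV) (h3 : S_KE) (h4 : S_KZ) (h5 : S_KI) (h6 : S_KIP) (h7 : S_MVU)
    (h8 : S_ZA) (h9 : S_ZI) (h10 : S_ZP) (h11 : S_OA) (h12 : S_OI) (h13 : S_RG) : S_HT := by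
  intro n φ h t
  rw [h1 _ _ (ContinuousMap.id _)]
  apply h7 _ (Set.range (ptA h)) (Set.range (ptI h)) {p : XX φ | p.1.1 = t}
    (h11 n φ h).2.isOpen_range (h12 n φ h).2.isOpen_range (h13 n φ h).1
  · obtain ⟨p, hp, hz⟩ := h8 n φ h
    have hA : p ⁻¹' (Subtype.val ⁻¹' {p : XX φ | p.1.1 = t}) =
        {e : Cs × (ℂ × ℂ) | e.2.2 ^ 2 - e.2.1 ^ 3 = t} := by
      ext e
      change (p e : XX φ).1.1 = t ↔ _
      rw [hp]
      rfl
    by_cases ht : t = 0
    · refine h2 _ _ p gA hz _ 0 ?_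
      rw [hA, ht, ← h1]
      exact h4
    · refine h2 _ _ p gA hz _ 2 ?_
      rw [hA]
      exact h3 t ht
  · obtain ⟨p, hp, hz⟩ := h9 n φ h
    refine h2 _ _ p gI hz _ 0 ?_
    have hA : p ⁻¹' (Subtype.val ⁻¹' {p : XX φ | p.1.1 = t}) =
        {e : Cs × Vi | e.2.1.1 = t} := by
      ext e
      change (p e : XX φ).1.1 = t ↔ _
      rw [hp]
      rfl
    rw [hA, ← h1]
    exact h5 t
  · obtain ⟨p, g, hp, hz⟩ := h10 n φ h
    refine h2 _ _ p g hz _ 0 ?_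
    have hA : p ⁻¹' (Subtype.val ⁻¹' {p : XX φ | p.1.1 = t}) =
        {e : {e : Cs × Vi // e.2.1.2 ≠ 0} | e.1.2.1.1 = t} := by
      ext e
      change (p e : XX φ).1.1 = t ↔ _
      rw [hp]
      rfl
    rw [hA, ← h1]
    exact h6 t

end Pool.Agent.Q110.HF.HT
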